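import Pool.Agent.helper7.BQ.Spec2

set_option autoImplicit false

namespace Pool.Agent.BQ

open Finset ArithmeticFunction MeasureTheory

private lemma CUM_sing (w : ℕ) (b : ℤ) : 0 ≤ sing w b ∧ sing w b ≤ 2 ^ w := by
  unfold sing
  have h : ∀ l ∈ (Icc 1 w).filter Nat.Prime,
      0 ≤ ((l : ℝ) / ((l : ℝ) - 1) * (1 - (nu l b : ℝ) / ((l : ℝ) - 1))) ∧
      ((l : ℝ) / ((l : ℝ) - 1) * (1 - (nu l b : ℝ) / ((l : ℝ) - 1))) ≤ 2 := by
    intro l hl
    have hp : l.Prime := (mem_filter.1 hl).2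
    have h2 : (2 : ℝ) ≤ l := by exact_mod_cast hp.two_le
    have hnu : (nu l b : ℝ) ≤ (l : ℝ) - 1 := by
      have h3 : nu l b ≤ l - 1 := by
        unfold nu
        refine (card_filter_le _ _).trans ?_
        simp
      have h4 : nu l b + 1 ≤ l := by
        have := hp.two_le
        omega
      have h5 : ((nu l b : ℕ) : ℝ) + 1 ≤ l := by exact_mod_cast h4
      linarith
    have hl1 : (0 : ℝ) < (l : ℝ) - 1 := by linarith
    have h5 : (nu l b : ℝ) / ((l : ℝ) - 1) ≤ 1 := by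
      rw [div_le_one hl1]
      exact hnu
    have h6 : 0 ≤ (nu l b : ℝ) / ((l : ℝ) - 1) := by positivity
    have h7 : (l : ℝ) / ((l : ℝ) - 1) ≤ 2 := by
      rw [div_le_iff₀ hl1]
      linarith
    have h8 : 0 ≤ (l : ℝ) / ((l : ℝ) - 1) := by positivity
    constructor
    · exact mul_nonneg h8 (by linarith)
    · nlinarith
  refine ⟨prod_nonneg fun l hl => (h l hl).1, ?_⟩
  refine (prod_le_prod (fun l hl => (h l hl).1) fun l hl => (h l hl).2).trans ?_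
  rw [prod_const]
  refine pow_le_pow_right₀ (by norm_num) ?_
  refine (card_filter_le _ _).trans ?_
  simp

private lemma CUM_double (x : ℕ) (b : ℤ) : cnt (2 * x) b = #(pairs x b) + cnt x b := by
  unfold cnt pairs
  rw [← card_union_of_disjoint]
  · congr 1
    rw [← filter_union]
    congr 1
    ext k
    simp only [mem_Ioc, mem_union]
    omega
  · refine disjoint_filter_filter ?_
    rw [disjoint_left]
    intro k hk hk2
    rw [mem_Ioc] at hk hk2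
    omega

private lemma CUM_split (n k : ℕ) (b : ℤ) :
    cnt (2 ^ n * k) b = ∑ i ∈ range n, #(pairs (2 ^ i * k) b) + cnt k b := by
  induction n with
  | zero => simp
  | succ n ih =>
    rw [pow_succ, mul_comm (2 ^ n) 2, mul_assoc, CUM_double, ih, sum_range_succ]
    ring

private lemma CUM_pairs_le (x : ℕ) (b : ℤ) : #(pairs x b) ≤ x := by
  unfold pairs
  refine (card_filter_le _ _).trans ?_
  rw [Nat.card_Ioc]
  omega

private lemma CUM_cnt_le (x : ℕ) (b : ℤ) : cnt x b ≤ x := by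
  unfold cnt
  refine (card_filter_le _ _).trans ?_
  rw [Nat.card_Ioc]
  omega

private lemma CUM_cnt_mono (b : ℤ) {x y : ℕ} (h : x ≤ y) : cnt x b ≤ cnt y b := by
  unfold cnt
  refine card_le_card (filter_subset_filter _ ?_)
  intro k hk
  rw [mem_Ioc] at hk ⊢
  omega

private lemma CUM_low (k : ℝ) (V : ℝ) (hk : 0 ≤ k) (hkV : k ≤ V) (n : ℕ) :
    ∑ i ∈ range n, (if 2 ^ i * k < V then 2 ^ i * k else 0) + k ≤ 2 ^ n * k ∧
    ∑ i ∈ range n, (if 2 ^ i * k < V then 2 ^ i * k else 0) + k ≤ 2 * V := by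
  induction n with
  | zero =>
    constructor
    · simp
    · simp
      linarith
  | succ n ih =>
    rw [sum_range_succ]
    obtain ⟨h1, h2⟩ := ih
    have hp : (0 : ℝ) ≤ 2 ^ n * k := by positivity
    split_ifs with h
    · constructor
      · rw [pow_succ]
        linarith
      · linarith
    · constructor
      · rw [pow_succ]
        linarith
      · linarith

private lemma CUM_wt (k : ℝ) (hk : 0 ≤ k) (n : ℕ) :
    ∑ i ∈ range n, 2 ^ i * k + k = 2 ^ n * k ∧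
    ∑ i ∈ range n, 2 ^ i * k * ((n : ℝ) - i) ≤ 2 * (2 ^ n * k) := by
  induction n with
  | zero =>
    constructor
    · simp
    · simp
      linarith
  | succ n ih =>
    obtain ⟨h1, h2⟩ := ih
    have h3 : ∑ i ∈ range (n + 1), 2 ^ i * k + k = 2 ^ (n + 1) * k := by
      rw [sum_range_succ, pow_succ]
      linarith
    refine ⟨h3, ?_⟩
    have h4 : ∑ i ∈ range (n + 1), 2 ^ i * k * (((n + 1 : ℕ) : ℝ) - i) =
        ∑ i ∈ range n, 2 ^ i * k * ((n : ℝ) - i) + ∑ i ∈ range (n + 1), 2 ^ i * k := by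
      rw [sum_range_succ, sum_range_succ (fun i => (2 : ℝ) ^ i * k) n, ← add_assoc, ← sum_add_distrib]
      congr 1
      · refine sum_congr rfl fun i _ => ?_
        push_cast
        ring
      · push_cast
        ring
    rw [h4]
    have h5 : (2 : ℝ) ^ (n + 1) * k = 2 * (2 ^ n * k) := by
      rw [pow_succ]
      ring
    linarith

private lemma CUM_chain (T : ℝ) (k n : ℕ) (s e : ℝ) (b : ℤ) (hT : 1 < T) (hk : 2 ≤ k)
    (hkT : (k : ℝ) ≤ √(2 * T)) (hX : ((2 ^ n * k : ℕ) : ℝ) ≤ T) (hs : 0 ≤ s) (he : 0 ≤ e)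
    (hg : ∀ i < n, 2 * T ≤ ((2 ^ i * k : ℕ) : ℝ) ^ 2 →
      |(#(pairs (2 ^ i * k) b) : ℝ) / (((2 ^ i * k : ℕ) : ℝ) / (2 * Real.log ((2 ^ i * k : ℕ) : ℝ) ^ 2)) - s| ≤ e) :
    |(cnt (2 ^ n * k) b : ℝ) / (((2 ^ n * k : ℕ) : ℝ) / (2 * Real.log ((2 ^ n * k : ℕ) : ℝ) ^ 2)) - s| ≤
      e * (1 + 12 / Real.log T) + s * (12 / Real.log T + 2 * √(2 * T) / ((2 ^ n * k : ℕ) : ℝ)) +
        4 * √(2 * T) * Real.log T ^ 2 / ((2 ^ n * k : ℕ) : ℝ) := by
  obtain ⟨X, hXd⟩ : ∃ X : ℝ, X = ((2 ^ n * k : ℕ) : ℝ) := ⟨_, rfl⟩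
  obtain ⟨V, hV⟩ : ∃ V : ℝ, V = √(2 * T) := ⟨_, rfl⟩
  rw [← hXd, ← hV]
  rw [← hV] at hkT
  rw [← hXd] at hX
  have hk0 : (2 : ℝ) ≤ k := by exact_mod_cast hk
  have hXe : X = 2 ^ n * (k : ℝ) := by
    rw [hXd]
    push_cast
    ring
  have h2n : (1 : ℝ) ≤ 2 ^ n := one_le_pow₀ (by norm_num)
  have hX2 : 2 ≤ X := by
    rw [hXe]
    nlinarith
  have hlX : 0 < Real.log X := Real.log_pos (by linarith)
  have hlT : 0 < Real.log T := Real.log_pos hT
  have hlXT : Real.log X ≤ Real.log T := Real.log_le_log (by linarith) hX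
  obtain ⟨l, hl⟩ : ∃ l, l = Real.log X := ⟨_, rfl⟩
  obtain ⟨L, hL⟩ : ∃ L, L = Real.log T := ⟨_, rfl⟩
  rw [← hl] at hlX hlXT ⊢
  rw [← hL] at hlT hlXT ⊢
  have hV0 : 0 ≤ V := by
    rw [hV]
    exact Real.sqrt_nonneg _
  have hV2 : V ^ 2 = 2 * T := by
    rw [hV]
    exact Real.sq_sqrt (by linarith)
  obtain ⟨D, hD⟩ : ∃ D, D = X / (2 * l ^ 2) := ⟨_, rfl⟩
  rw [← hD]
  have hDp : 0 < D := by
    rw [hD]
    positivity
  have hcast : ∀ i : ℕ, ((2 ^ i * k : ℕ) : ℝ) = 2 ^ i * (k : ℝ) := by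
    intro i
    push_cast
    ring
  -- termwise bound
  have hterm : ∀ i ∈ range n,
      |(#(pairs (2 ^ i * k) b) : ℝ) - s * (2 ^ i * (k : ℝ) / (2 * l ^ 2))| ≤
        e * (2 ^ i * (k : ℝ) / (2 * l ^ 2)) + (e + s) * (3 / (l ^ 2 * L)) * (2 ^ i * (k : ℝ) * ((n : ℝ) - i)) +
          (1 + s / (2 * l ^ 2)) * (if 2 ^ i * (k : ℝ) < V then 2 ^ i * (k : ℝ) else 0) := by
    intro i hi
    rw [mem_range] at hi
    have hin : (0 : ℝ) ≤ (n : ℝ) - i := by
      have : (i : ℝ) ≤ n := by exact_mod_cast hi.le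
      linarith
    obtain ⟨u, hu⟩ : ∃ u : ℝ, u = 2 ^ i * (k : ℝ) := ⟨_, rfl⟩
    have h2i : (1 : ℝ) ≤ 2 ^ i := one_le_pow₀ (by norm_num)
    have hu2 : 2 ≤ u := by
      rw [hu]
      nlinarith
    obtain ⟨A, hA⟩ : ∃ A : ℝ, A = (#(pairs (2 ^ i * k) b) : ℝ) := ⟨_, rfl⟩
    have hgi := hg i hi
    rw [hcast i, ← hu, ← hA] at hgi
    rw [← hu, ← hA]
    obtain ⟨d, hd⟩ : ∃ d, d = u / (2 * l ^ 2) := ⟨_, rfl⟩
    rw [← hd]
    have hd0 : 0 < d := by
      rw [hd]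
      positivity
    have hA0 : 0 ≤ A := by
      rw [hA]
      positivity
    have hAu : A ≤ u := by
      rw [hA, hu, ← hcast i]
      exact_mod_cast CUM_pairs_le _ _
    by_cases hbad : u < V
    · rw [if_pos hbad]
      have h1 : s * d = s / (2 * l ^ 2) * u := by
        rw [hd]
        ring
      have h2 : 0 ≤ s * d := mul_nonneg hs hd0.le
      have h3 : 0 ≤ e * d := mul_nonneg he hd0.le
      have h4 : 0 ≤ (e + s) * (3 / (l ^ 2 * L)) * (u * ((n : ℝ) - i)) := by positivity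
      rw [abs_le]
      constructor
      · nlinarith
      · nlinarith
    · rw [if_neg hbad, mul_zero, add_zero]
      have hVu : V ≤ u := not_lt.1 hbad
      have hu2T : 2 * T ≤ u ^ 2 := by
        rw [← hV2]
        exact pow_le_pow_left₀ hV0 hVu 2
      have hgi' := hgi hu2T
      obtain ⟨m, hm⟩ : ∃ m, m = Real.log u := ⟨_, rfl⟩
      rw [← hm] at hgi'
      have hm0 : 0 < m := by
        rw [hm]
        exact Real.log_pos (by linarith)
      have hLm : L ≤ 2 * m := by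
        have h1 : Real.log T ≤ Real.log (u ^ 2) := Real.log_le_log (by linarith) (by linarith)
        rw [Real.log_pow] at h1
        rw [hL, hm]
        exact_mod_cast h1
      have hlm : l - m ≤ (n : ℝ) - i := by
        have h1 : Real.log X = n * Real.log 2 + Real.log k := by
          rw [hXe, Real.log_mul (by positivity) (by positivity), Real.log_pow]
        have h2 : Real.log u = i * Real.log 2 + Real.log k := by
          rw [hu, Real.log_mul (by positivity) (by positivity), Real.log_pow]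
        have h3 : Real.log 2 ≤ 1 := by
          have := Real.log_two_lt_d9
          linarith
        rw [hl, hm, h1, h2]
        nlinarith
      have hml : m ≤ l := by
        rw [hl, hm]
        refine Real.log_le_log (by linarith) ?_
        rw [hu, hXe]
        gcongr
        norm_num
      obtain ⟨r, hr⟩ : ∃ r, r = l / m := ⟨_, rfl⟩
      have hr1 : 1 ≤ r := by
        rw [hr, le_div_iff₀ hm0]
        linarith
      have hr2 : r ≤ 2 := by
        rw [hr, div_le_iff₀ hm0]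
        linarith
      have hr3 : r - 1 ≤ 2 * ((n : ℝ) - i) / L := by
        have h1 : r - 1 = (l - m) / m := by
          rw [hr]
          field_simp
        rw [h1, div_le_div_iff₀ hm0 hlT]
        have h2 : 0 ≤ l - m := by linarith
        nlinarith
      have hc : u / (2 * m ^ 2) = d * r ^ 2 := by
        rw [hd, hr]
        field_simp
      rw [hc] at hgi'
      have hc0 : 0 < d * r ^ 2 := by positivity
      have h5 : |A - s * (d * r ^ 2)| ≤ e * (d * r ^ 2) := by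
        have h6 : A / (d * r ^ 2) - s = (A - s * (d * r ^ 2)) / (d * r ^ 2) := by
          field_simp
        rw [h6, abs_div, abs_of_pos hc0, div_le_iff₀ hc0] at hgi'
        exact hgi'
      have h7 : d * r ^ 2 - d ≤ d * (6 * ((n : ℝ) - i) / L) := by
        have h8 : r ^ 2 - 1 ≤ 6 * ((n : ℝ) - i) / L := by
          have h9 : 6 * ((n : ℝ) - i) / L = 3 * (2 * ((n : ℝ) - i) / L) := by ring
          rw [h9]
          nlinarith
        have h10 : d * r ^ 2 - d = d * (r ^ 2 - 1) := by ring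
        rw [h10]
        exact mul_le_mul_of_nonneg_left h8 hd0.le
      have h11 : d * (6 * ((n : ℝ) - i) / L) = 3 / (l ^ 2 * L) * (u * ((n : ℝ) - i)) := by
        rw [hd]
        field_simp
        ring
      have h12 : 0 ≤ d * r ^ 2 - d := by
        have h16 : 1 ≤ r ^ 2 := one_le_pow₀ hr1
        nlinarith
      rw [h11] at h7
      have h13 : e * (d * r ^ 2 - d) ≤ e * (3 / (l ^ 2 * L) * (u * ((n : ℝ) - i))) :=
        mul_le_mul_of_nonneg_left h7 he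
      have h14 : s * (d * r ^ 2 - d) ≤ s * (3 / (l ^ 2 * L) * (u * ((n : ℝ) - i))) :=
        mul_le_mul_of_nonneg_left h7 hs
      have h15 : 0 ≤ s * (d * r ^ 2 - d) := mul_nonneg hs h12
      rw [abs_le] at h5 ⊢
      obtain ⟨h51, h52⟩ := h5
      constructor
      · nlinarith
      · nlinarith
  have hsplit := CUM_split n k b
  have hsplitR : (cnt (2 ^ n * k) b : ℝ) = ∑ i ∈ range n, (#(pairs (2 ^ i * k) b) : ℝ) + (cnt k b : ℝ) := by
    rw [hsplit]
    push_cast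
    ring
  obtain ⟨hw1, hw2⟩ := CUM_wt (k : ℝ) (by linarith) n
  obtain ⟨-, hlow⟩ := CUM_low (k : ℝ) V (by linarith) hkT n
  have hdiff : (cnt (2 ^ n * k) b : ℝ) - s * D =
      ∑ i ∈ range n, ((#(pairs (2 ^ i * k) b) : ℝ) - s * (2 ^ i * (k : ℝ) / (2 * l ^ 2))) +
        ((cnt k b : ℝ) - s * ((k : ℝ) / (2 * l ^ 2))) := by
    rw [hsplitR, sum_sub_distrib, ← mul_sum, ← sum_div, hD, hXe, ← hw1]
    ring
  have hk2 : |(cnt k b : ℝ) - s * ((k : ℝ) / (2 * l ^ 2))| ≤ (1 + s / (2 * l ^ 2)) * k := by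
    have h1 : (cnt k b : ℝ) ≤ k := by exact_mod_cast CUM_cnt_le k b
    have h2 : (0 : ℝ) ≤ cnt k b := by positivity
    have h3 : s * ((k : ℝ) / (2 * l ^ 2)) = s / (2 * l ^ 2) * k := by ring
    have h4 : 0 ≤ s / (2 * l ^ 2) * k := by positivity
    rw [abs_le]
    constructor
    · nlinarith
    · nlinarith
  have habs : |(cnt (2 ^ n * k) b : ℝ) - s * D| ≤
      e * D + (e + s) * (12 / L) * D + (1 + s / (2 * l ^ 2)) * (2 * V) := by
    rw [hdiff]
    refine (abs_add_le _ _).trans ?_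
    have h1 := (abs_sum_le_sum_abs (fun i => (#(pairs (2 ^ i * k) b) : ℝ) - s * (2 ^ i * (k : ℝ) / (2 * l ^ 2)))
      (range n)).trans (sum_le_sum hterm)
    rw [sum_add_distrib, sum_add_distrib, ← mul_sum, ← mul_sum, ← mul_sum, ← sum_div] at h1
    have h2 : e * ((∑ i ∈ range n, 2 ^ i * (k : ℝ)) / (2 * l ^ 2)) ≤ e * D := by
      refine mul_le_mul_of_nonneg_left ?_ he
      rw [hD]
      gcongr
      rw [hXe]
      linarith
    have h3 : (e + s) * (3 / (l ^ 2 * L)) * ∑ i ∈ range n, 2 ^ i * (k : ℝ) * ((n : ℝ) - i) ≤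
        (e + s) * (12 / L) * D := by
      have h4 : (e + s) * (12 / L) * D = (e + s) * (3 / (l ^ 2 * L)) * (2 * X) := by
        rw [hD]
        field_simp
        ring
      rw [h4]
      refine mul_le_mul_of_nonneg_left ?_ (by positivity)
      rw [hXe]
      exact hw2
    have h5 : (1 + s / (2 * l ^ 2)) * (∑ i ∈ range n, if 2 ^ i * (k : ℝ) < V then 2 ^ i * (k : ℝ) else 0) +
        (1 + s / (2 * l ^ 2)) * k ≤ (1 + s / (2 * l ^ 2)) * (2 * V) := by
      rw [← mul_add]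
      exact mul_le_mul_of_nonneg_left hlow (by positivity)
    linarith
  have hfin : (cnt (2 ^ n * k) b : ℝ) / D - s = ((cnt (2 ^ n * k) b : ℝ) - s * D) / D := by
    field_simp
  rw [hfin, abs_div, abs_of_pos hDp, div_le_iff₀ hDp]
  refine habs.trans ?_
  have e1 : 2 * V / X * D = V / l ^ 2 := by
    rw [hD]
    field_simp
  have e2 : 4 * V * L ^ 2 / X * D = 2 * V * (L ^ 2 / l ^ 2) := by
    rw [hD]
    field_simp
    ring
  have e3 : 1 ≤ L ^ 2 / l ^ 2 := by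
    rw [one_le_div (by positivity)]
    exact pow_le_pow_left₀ hlX.le hlXT 2
  have e4 : (1 + s / (2 * l ^ 2)) * (2 * V) = 2 * V + s * (V / l ^ 2) := by
    field_simp
  have e5 : 2 * V ≤ 2 * V * (L ^ 2 / l ^ 2) := by nlinarith
  have e6 : (e * (1 + 12 / L) + s * (12 / L + 2 * V / X) + 4 * V * L ^ 2 / X) * D =
      e * D + (e + s) * (12 / L) * D + s * (2 * V / X * D) + 4 * V * L ^ 2 / X * D := by ring
  rw [e6, e1, e2, e4]
  linarith

private lemma CUM_pick (M x : ℕ) (hM : 1 ≤ M) (hx : M ≤ x) :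
    ∃ n k : ℕ, M ≤ k ∧ k < 2 * M ∧ 2 ^ n * k ≤ x ∧ x < 2 ^ n * (k + 1) := by
  refine ⟨Nat.log 2 (x / M), x / 2 ^ Nat.log 2 (x / M), ?_, ?_, Nat.mul_div_le _ _,
    Nat.lt_mul_div_succ _ (by positivity)⟩
  · rw [Nat.le_div_iff_mul_le (by positivity)]
    have h1 : 2 ^ Nat.log 2 (x / M) ≤ x / M := Nat.pow_log_le_self 2 (Nat.div_pos hx hM).ne'
    rw [Nat.le_div_iff_mul_le hM] at h1
    linarith
  · rw [Nat.div_lt_iff_lt_mul (by positivity)]
    have h1 : x / M < 2 ^ (Nat.log 2 (x / M) + 1) := Nat.lt_pow_succ_log_self (by norm_num) _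
    rw [Nat.div_lt_iff_lt_mul hM] at h1
    rw [pow_succ] at h1
    linarith

/-- eventual inequalities -/
private lemma CUM_ev (θ δ : ℝ) (M : ℕ) (hθ : 0 < θ) (hδ : 0 < δ) : ∃ T₀ : ℕ, ∀ T : ℕ, T₀ ≤ T →
    12 ≤ δ * Real.log T ∧ 16 * Real.log T ^ 2 ≤ δ * (T : ℝ) ^ θ ∧ 2 ≤ (T : ℝ) ^ (θ ^ 2) ∧
    2 ≤ (T : ℝ) ^ (θ / 2) ∧ (2 * (M : ℝ)) ^ 2 ≤ T ∧
    ((M : ℝ) + 1) * (2 * Real.log T + 1) ≤ Real.log T ^ 4 ∧ (2 : ℝ) ≤ T ∧ 1 ≤ Real.log T := by
  have h1 : ∀ᶠ T : ℝ in Filter.atTop, 12 ≤ δ * Real.log T :=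
    (Real.tendsto_log_atTop.const_mul_atTop hδ).eventually_ge_atTop 12
  have h2 : ∀ᶠ T : ℝ in Filter.atTop, 16 * Real.log T ^ 2 ≤ δ * T ^ θ := by
    have h := (isLittleO_log_rpow_rpow_atTop 2 hθ).bound (show 0 < δ / 16 by positivity)
    filter_upwards [h, Filter.eventually_ge_atTop 1] with T hT hT1
    rw [Real.norm_of_nonneg (Real.rpow_nonneg (Real.log_nonneg hT1) _),
      Real.norm_of_nonneg (Real.rpow_nonneg (by linarith) _)] at hT
    have e1 : Real.log T ^ (2 : ℝ) = Real.log T ^ 2 := by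
      rw [← Real.rpow_natCast]
      norm_num
    rw [e1] at hT
    linarith
  have h3 : ∀ᶠ T : ℝ in Filter.atTop, 2 ≤ T ^ (θ ^ 2) :=
    (tendsto_rpow_atTop (by positivity)).eventually_ge_atTop 2
  have h4 : ∀ᶠ T : ℝ in Filter.atTop, 2 ≤ T ^ (θ / 2) :=
    (tendsto_rpow_atTop (by positivity)).eventually_ge_atTop 2
  have h5 : ∀ᶠ T : ℝ in Filter.atTop, (2 * (M : ℝ)) ^ 2 ≤ T := Filter.eventually_ge_atTop _
  have h6 : ∀ᶠ T : ℝ in Filter.atTop, (M : ℝ) + 2 ≤ Real.log T :=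
    Real.tendsto_log_atTop.eventually_ge_atTop _
  have h7 : ∀ᶠ T : ℝ in Filter.atTop, (2 : ℝ) ≤ T := Filter.eventually_ge_atTop _
  have h8 := h1.and (h2.and (h3.and (h4.and (h5.and (h6.and h7)))))
  obtain ⟨T₀, hT₀⟩ := Filter.eventually_atTop.1 h8
  refine ⟨⌈T₀⌉₊, fun T hT => ?_⟩
  obtain ⟨g1, g2, g3, g4, g5, g6, g7⟩ := hT₀ T ((Nat.le_ceil _).trans (by exact_mod_cast hT))
  have hM0 : (0 : ℝ) ≤ M := by positivity
  obtain ⟨L, hL⟩ : ∃ L, L = Real.log T := ⟨_, rfl⟩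
  rw [← hL] at g1 g2 g6 ⊢
  refine ⟨g1, g2, g3, g4, g5, ?_, g7, by linarith⟩
  have k1 : (M : ℝ) + 1 ≤ L := by linarith
  have k2 : 2 * L + 1 ≤ 3 * L := by linarith
  have k3 : 2 ≤ L := by linarith
  calc ((M : ℝ) + 1) * (2 * L + 1) ≤ L * (3 * L) := by
        refine mul_le_mul k1 k2 (by linarith) (by linarith)
    _ = 3 * L ^ 2 := by ring
    _ ≤ L ^ 2 * L ^ 2 := by
        have k4 : 3 ≤ L ^ 2 := by nlinarith
        exact mul_le_mul_of_nonneg_right k4 (by positivity)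
    _ = L ^ 4 := by ring

private lemma CUM_small (T P L δ e s W X : ℝ) (hT : 0 < T) (hL1 : 1 ≤ L) (hδ0 : 0 < δ) (he0 : 0 < e)
    (he1 : e ≤ 1) (hδ2 : δ ≤ 1 / 32) (hW : 1 ≤ W) (hs0 : 0 ≤ s) (hs1 : s ≤ W)
    (E1 : 12 ≤ δ * L) (E2 : 16 * L ^ 2 ≤ δ * P) (hδ1 : δ * (W + 1) = e / 16)
    (hX : √T * P ≤ 2 * X) (hX0 : 0 < X) :
    e / 4 * (1 + 12 / L) + s * (12 / L + 2 * √(2 * T) / X) + 4 * √(2 * T) * L ^ 2 / X ≤ 3 * e / 8 := by
  have hL0 : 0 < L := by linarith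
  have hV2 : √(2 * T) ≤ 2 * √T := by
    rw [Real.sqrt_le_left (by positivity), mul_pow, Real.sq_sqrt hT.le]
    linarith
  have hsq0 : 0 < √T := Real.sqrt_pos.2 hT
  have q1 : 12 / L ≤ δ := by
    rw [div_le_iff₀ hL0]
    exact E1
  have q2 : 4 * √(2 * T) * L ^ 2 / X ≤ δ := by
    rw [div_le_iff₀ hX0]
    have q3 : 4 * √(2 * T) * L ^ 2 ≤ 4 * (2 * √T) * L ^ 2 := by gcongr
    have q4 : √T * (16 * L ^ 2) ≤ √T * (δ * P) := mul_le_mul_of_nonneg_left E2 hsq0.le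
    have q5 := mul_le_mul_of_nonneg_left hX hδ0.le
    calc 4 * √(2 * T) * L ^ 2 ≤ 4 * (2 * √T) * L ^ 2 := q3
      _ = √T * (16 * L ^ 2) / 2 := by ring
      _ ≤ √T * (δ * P) / 2 := by linarith
      _ = δ * (√T * P) / 2 := by ring
      _ ≤ δ * (2 * X) / 2 := by linarith
      _ = δ * X := by ring
  have q7 : 0 ≤ √(2 * T) := Real.sqrt_nonneg _
  have q6 : 2 * √(2 * T) / X ≤ 4 * √(2 * T) * L ^ 2 / X := by
    have q8 : 1 ≤ L ^ 2 := one_le_pow₀ hL1
    refine div_le_div_of_nonneg_right ?_ hX0.le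
    have q9 := mul_le_mul_of_nonneg_left q8 q7
    linarith
  have q9 : 0 ≤ 12 / L := by positivity
  have q11 : 0 ≤ 12 / L + 2 * √(2 * T) / X := by positivity
  have q10 : s * (12 / L + 2 * √(2 * T) / X) ≤ W * (2 * δ) := by
    refine mul_le_mul hs1 (by linarith) q11 (by linarith)
  have q12 : e / 4 * (12 / L) ≤ 1 / 4 * δ := by
    refine mul_le_mul (by linarith) q1 q9 (by norm_num)
  have q13 : W * (2 * δ) + δ + 1 / 4 * δ ≤ 2 * (δ * (W + 1)) := by
    have : 0 ≤ δ := hδ0.le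
    linarith [mul_comm W δ]
  have q14 : e / 4 * (1 + 12 / L) = e / 4 + e / 4 * (12 / L) := by ring
  rw [q14]
  linarith

private lemma CUM_DD (X X' x δ : ℝ) (hX2 : 2 ≤ X) (hδ0 : 0 < δ) (hδ2 : δ ≤ 1 / 32) (hXx' : X ≤ x)
    (hxX' : x ≤ X') (hX'δ : X' ≤ X * (1 + δ)) :
    0 < x / (2 * Real.log x ^ 2) ∧ 0 < X / (2 * Real.log X ^ 2) ∧ 0 < X' / (2 * Real.log X' ^ 2) ∧
    (1 - δ) * (x / (2 * Real.log x ^ 2)) ≤ X / (2 * Real.log X ^ 2) ∧
    X' / (2 * Real.log X' ^ 2) ≤ (1 + δ) * (x / (2 * Real.log x ^ 2)) := by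
  have hxp : 0 < x := by linarith
  have hXpos : 0 < X := by linarith
  have hX'pos : 0 < X' := by linarith
  have hlX : 0 < Real.log X := Real.log_pos (by linarith)
  have hlx : 0 < Real.log x := Real.log_pos (by linarith)
  have hlX' : 0 < Real.log X' := Real.log_pos (by linarith)
  have hl1 : Real.log X ≤ Real.log x := Real.log_le_log hXpos hXx'
  have hl2 : Real.log x ≤ Real.log X' := Real.log_le_log hxp hxX'
  refine ⟨by positivity, by positivity, by positivity, ?_, ?_⟩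
  · have k1 : (1 - δ) * x ≤ X := by
      have k2 : x ≤ X * (1 + δ) := hxX'.trans hX'δ
      have k3 : (1 - δ) * x ≤ (1 - δ) * (X * (1 + δ)) := mul_le_mul_of_nonneg_left k2 (by linarith)
      have k4 : (1 - δ) * (X * (1 + δ)) = X - X * δ ^ 2 := by ring
      have k5 : 0 ≤ X * δ ^ 2 := by positivity
      linarith
    calc (1 - δ) * (x / (2 * Real.log x ^ 2)) = ((1 - δ) * x) / (2 * Real.log x ^ 2) := by ring
      _ ≤ X / (2 * Real.log x ^ 2) := by gcongr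
      _ ≤ _ := by gcongr
  · have k1 : X' ≤ (1 + δ) * x := by
      have k2 : X * (1 + δ) ≤ x * (1 + δ) := mul_le_mul_of_nonneg_right hXx' (by linarith)
      linarith
    calc X' / (2 * Real.log X' ^ 2) ≤ X' / (2 * Real.log x ^ 2) := by gcongr
      _ ≤ ((1 + δ) * x) / (2 * Real.log x ^ 2) := by gcongr
      _ = _ := by ring

private lemma CUM_cmp (δ e s W c c1 c2 D D1 D2 : ℝ) (hδ0 : 0 < δ) (he1 : e ≤ 1)
    (hδ1 : δ * (W + 1) = e / 16) (hs1 : s ≤ W)
    (hDp : 0 < D) (hD1p : 0 < D1) (hD2p : 0 < D2) (hD1D : (1 - δ) * D ≤ D1) (hD2D : D2 ≤ (1 + δ) * D)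
    (hc1 : 0 ≤ c1) (hc2 : 0 ≤ c2) (r1 : c1 ≤ c) (r2 : c ≤ c2)
    (d1 : |c1 / D1 - s| ≤ 3 * e / 8) (d2 : |c2 / D2 - s| ≤ 3 * e / 8) : |c / D - s| ≤ e := by
  obtain ⟨C1, hC1⟩ : ∃ C1, C1 = c1 / D1 := ⟨_, rfl⟩
  obtain ⟨C2, hC2⟩ : ∃ C2, C2 = c2 / D2 := ⟨_, rfl⟩
  rw [← hC1] at d1
  rw [← hC2] at d2
  have hC10 : 0 ≤ C1 := by
    rw [hC1]
    positivity
  have hC20 : 0 ≤ C2 := by
    rw [hC2]
    positivity
  have f1 : C1 * D1 = c1 := by
    rw [hC1]
    field_simp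
  have f2 : C2 * D2 = c2 := by
    rw [hC2]
    field_simp
  rw [abs_le] at d1 d2
  obtain ⟨d11, d12⟩ := d1
  obtain ⟨d21, d22⟩ := d2
  have g1 : C1 * (1 - δ) ≤ c / D := by
    rw [le_div_iff₀ hDp]
    calc C1 * (1 - δ) * D = C1 * ((1 - δ) * D) := by ring
      _ ≤ C1 * D1 := mul_le_mul_of_nonneg_left hD1D hC10
      _ ≤ _ := by
        rw [f1]
        exact r1
  have g2 : c / D ≤ C2 * (1 + δ) := by
    rw [div_le_iff₀ hDp]
    calc c ≤ C2 * D2 := by
          rw [f2]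
          exact r2
      _ ≤ C2 * ((1 + δ) * D) := mul_le_mul_of_nonneg_left hD2D hC20
      _ = _ := by ring
  have g3 : δ * C1 ≤ e / 16 := by
    rw [← hδ1]
    refine mul_le_mul_of_nonneg_left ?_ hδ0.le
    linarith
  have g4 : δ * C2 ≤ e / 16 := by
    rw [← hδ1]
    refine mul_le_mul_of_nonneg_left ?_ hδ0.le
    linarith
  have g5 : C1 * (1 - δ) = C1 - δ * C1 := by ring
  have g6 : C2 * (1 + δ) = C2 + δ * C2 := by ring
  rw [abs_le]
  constructor
  · linarith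
  · linarith

theorem CUM (h1 : GRID_stmt) : CUM_stmt := by
  intro θ ε hθ hε
  obtain ⟨e, he⟩ : ∃ e, e = min ε 1 := ⟨_, rfl⟩
  have he0 : 0 < e := by
    rw [he]
    exact lt_min hε one_pos
  have he1 : e ≤ 1 := by
    rw [he]
    exact min_le_right _ _
  have heε : e ≤ ε := by
    rw [he]
    exact min_le_left _ _
  obtain ⟨w₀, hw₀⟩ := h1 θ (e / 4) hθ (by positivity)
  refine ⟨w₀, fun w hw => ?_⟩
  obtain ⟨T₁, hT₁⟩ := hw₀ w hw
  obtain ⟨δ, hδ⟩ : ∃ δ : ℝ, δ = e / (16 * (2 ^ w + 1)) := ⟨_, rfl⟩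
  have hδ0 : 0 < δ := by
    rw [hδ]
    positivity
  have h2w : (1 : ℝ) ≤ 2 ^ w := one_le_pow₀ (by norm_num)
  have hδ1 : δ * (2 ^ w + 1) = e / 16 := by
    rw [hδ]
    field_simp
  have hδ2 : δ ≤ 1 / 32 := by nlinarith
  obtain ⟨M, hM⟩ : ∃ M : ℕ, 1 / δ ≤ M := exists_nat_ge _
  have hMδ : 1 ≤ δ * M := by
    rw [div_le_iff₀ hδ0] at hM
    linarith
  have hM2 : 2 ≤ M := by
    have : (2 : ℝ) ≤ M := by nlinarith
    exact_mod_cast this
  obtain ⟨T₂, hT₂⟩ := CUM_ev θ δ M hθ hδ0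
  refine ⟨max T₁ T₂, fun T hT => ?_⟩
  obtain ⟨E1, E2, E3, E4, E5, E6, E7, E8⟩ := hT₂ T ((le_max_right _ _).trans hT)
  obtain ⟨L, hL⟩ : ∃ L, L = Real.log T := ⟨_, rfl⟩
  rw [← hL] at E1 E2 E6 E8
  have hTp : (0 : ℝ) < T := by linarith
  obtain ⟨G, hG⟩ : ∃ G : Finset ℕ, G = (((Icc M (2 * M)) ×ˢ range (Nat.log 2 T + 1)).image
      (fun p => 2 ^ p.2 * p.1)).filter (fun x => 2 * T ≤ x ^ 2 ∧ (x : ℝ) ^ (1 + θ) ≤ T) := ⟨_, rfl⟩
  have hcard : (#G : ℝ) ≤ Real.log T ^ 4 := by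
    rw [← hL]
    refine le_trans ?_ E6
    have k1 : #G ≤ (M + 1) * (Nat.log 2 T + 1) := by
      rw [hG]
      refine (card_filter_le _ _).trans (card_image_le.trans ?_)
      rw [card_product, Nat.card_Icc, card_range]
      have : 2 * M + 1 - M = M + 1 := by omega
      rw [this]
    have k2 : (#G : ℝ) ≤ ((M : ℝ) + 1) * ((Nat.log 2 T : ℝ) + 1) := by exact_mod_cast k1
    have k3 : (Nat.log 2 T : ℝ) ≤ 2 * L := by
      have k4 : 2 ^ Nat.log 2 T ≤ T := Nat.pow_log_le_self 2 (by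
        have : 0 < T := by exact_mod_cast hTp
        omega)
      have k5 : ((2 : ℝ)) ^ Nat.log 2 T ≤ T := by exact_mod_cast k4
      have k6 := Real.log_le_log (by positivity) k5
      rw [Real.log_pow, ← hL] at k6
      have k7 : (1 / 2 : ℝ) ≤ Real.log 2 := by
        have := Real.log_two_gt_d9
        linarith
      have k8 : (0 : ℝ) ≤ (Nat.log 2 T : ℝ) := by positivity
      nlinarith
    refine k2.trans ?_
    refine mul_le_mul_of_nonneg_left (by linarith) (by positivity)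
  have hcond : ∀ x ∈ G, 2 * T ≤ x ^ 2 ∧ (x : ℝ) ^ (1 + θ) ≤ T := by
    intro x hx
    rw [hG, mem_filter] at hx
    exact hx.2
  have hexc := hT₁ T ((le_max_left _ _).trans hT) G hcard hcond
  have hsub : {b : ℕ | T < b ∧ b ≤ 2 * T ∧ ∃ x : ℕ, (b : ℝ) ^ (1 / 2 + θ) ≤ x ∧ (x : ℝ) ≤ (b : ℝ) ^ (1 - θ) ∧
      ε < |(cnt x (b : ℤ) : ℝ) / (x / (2 * Real.log x ^ 2)) - sing w (b : ℤ)|} ⊆
      (((Ioc T (2 * T)).filter fun b : ℕ => ∃ x ∈ G,
        e / 4 < |(#(pairs x (b : ℤ)) : ℝ) / (x / (2 * Real.log x ^ 2)) - sing w (b : ℤ)| : Finset ℕ) : Set ℕ) := by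
    rintro b ⟨hb1, hb2, x, hx1, hx2, hx3⟩
    by_contra hnot
    obtain ⟨s, hs⟩ : ∃ s, s = sing w (b : ℤ) := ⟨_, rfl⟩
    rw [← hs] at hx3
    have hsing := CUM_sing w (b : ℤ)
    rw [← hs] at hsing
    obtain ⟨hs0, hs1⟩ := hsing
    have hgood : ∀ y ∈ G, |(#(pairs y (b : ℤ)) : ℝ) / (y / (2 * Real.log y ^ 2)) - s| ≤ e / 4 := by
      intro y hy
      by_contra hc
      rw [not_le, hs] at hc
      apply hnot
      rw [mem_coe, mem_filter, mem_Ioc]
      exact ⟨⟨hb1, hb2⟩, y, hy, hc⟩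
    have hb1' : (T : ℝ) ≤ b := by exact_mod_cast hb1.le
    have hb2' : (b : ℝ) ≤ 2 * T := by exact_mod_cast hb2
    have hbp : (0 : ℝ) < b := by linarith
    have hxT : (T : ℝ) ^ (1 / 2 + θ) ≤ x :=
      (Real.rpow_le_rpow hTp.le hb1' (by positivity)).trans hx1
    have hsplit : (T : ℝ) ^ (1 / 2 + θ) = √(T : ℝ) * (T : ℝ) ^ θ := by
      rw [Real.rpow_add hTp, Real.sqrt_eq_rpow]
    have hTθ : 1 ≤ (T : ℝ) ^ θ := Real.one_le_rpow (by linarith) hθ.le
    have hsq0 : 0 < √(T : ℝ) := Real.sqrt_pos.2 hTp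
    have hxs : √(T : ℝ) ≤ x := by
      refine le_trans ?_ hxT
      rw [hsplit]
      nlinarith
    have hxp : (0 : ℝ) < x := hsq0.trans_le hxs
    have hx1θ : (x : ℝ) ^ (1 + θ) ≤ T := by
      calc (x : ℝ) ^ (1 + θ) ≤ ((b : ℝ) ^ (1 - θ)) ^ (1 + θ) :=
            Real.rpow_le_rpow hxp.le hx2 (by positivity)
        _ = (b : ℝ) / (b : ℝ) ^ (θ ^ 2) := by
            rw [← Real.rpow_mul hbp.le, show (1 - θ) * (1 + θ) = 1 - θ ^ 2 from by ring,
              Real.rpow_sub hbp, Real.rpow_one]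
        _ ≤ (2 * T) / 2 := by
            refine div_le_div₀ (by positivity) hb2' (by norm_num) ?_
            exact E3.trans (Real.rpow_le_rpow hTp.le hb1' (by positivity))
        _ = T := by ring
    have h2x : 2 * (x : ℝ) ≤ T := by
      refine le_trans ?_ hx1θ
      rw [Real.rpow_add hxp, Real.rpow_one]
      have k1 : 2 ≤ (x : ℝ) ^ θ := by
        refine E4.trans ?_
        have k2 : (T : ℝ) ^ (θ / 2) = (√(T : ℝ)) ^ θ := by
          rw [Real.sqrt_eq_rpow, ← Real.rpow_mul hTp.le]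
          congr 1
          ring
        rw [k2]
        exact Real.rpow_le_rpow hsq0.le hxs hθ.le
      nlinarith
    have hM2T : 2 * (M : ℝ) ≤ √(T : ℝ) := Real.le_sqrt_of_sq_le E5
    have hMx : M ≤ x := by
      have : (M : ℝ) ≤ x := by
        have : (0 : ℝ) ≤ M := by positivity
        linarith
      exact_mod_cast this
    obtain ⟨n, k, hk1, hk2, hXx, hxX⟩ := CUM_pick M x (by omega) hMx
    have hV : √(T : ℝ) ≤ √(2 * T : ℝ) := Real.sqrt_le_sqrt (by linarith)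
    have hV2 : √(2 * T : ℝ) ≤ 2 * √(T : ℝ) := by
      rw [Real.sqrt_le_left (by positivity), mul_pow, Real.sq_sqrt hTp.le]
      linarith
    have hmem : ∀ i k' : ℕ, M ≤ k' → k' ≤ 2 * M → 2 ^ i * k' ≤ x →
        2 * (T : ℝ) ≤ ((2 ^ i * k' : ℕ) : ℝ) ^ 2 →
        |(#(pairs (2 ^ i * k') b) : ℝ) / (((2 ^ i * k' : ℕ) : ℝ) / (2 * Real.log ((2 ^ i * k' : ℕ) : ℝ) ^ 2)) - s|
          ≤ e / 4 := by
      intro i k' hk'1 hk'2 hk'3 hk'4
      refine hgood _ ?_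
      rw [hG, mem_filter, mem_image]
      refine ⟨⟨(k', i), ?_, rfl⟩, by exact_mod_cast hk'4, ?_⟩
      · rw [mem_product, mem_Icc, mem_range]
        refine ⟨⟨hk'1, hk'2⟩, ?_⟩
        have k1 : 2 ^ i ≤ T := by
          have k2 : 2 ^ i * 1 ≤ 2 ^ i * k' := Nat.mul_le_mul_left _ (by omega)
          have k3 : x ≤ T := by
            have : (x : ℝ) ≤ T := by linarith
            exact_mod_cast this
          omega
        have k4 := Nat.le_log_of_pow_le (by norm_num : 1 < 2) k1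
        show i < Nat.log 2 T + 1
        omega
      · refine le_trans (Real.rpow_le_rpow (by positivity) ?_ (by positivity)) hx1θ
        exact_mod_cast hk'3
    have hpow : 1 ≤ 2 ^ n := Nat.one_le_two_pow
    have hX'X : 2 ^ n * (k + 1) ≤ 2 * (2 ^ n * k) := by
      have : 2 ^ n * 1 ≤ 2 ^ n * k := Nat.mul_le_mul_left _ (by omega)
      have k1 : 2 ^ n * (k + 1) = 2 ^ n * k + 2 ^ n := by ring
      omega
    -- the two chains
    have hsmall : ∀ X : ℝ, √(T : ℝ) * (T : ℝ) ^ θ ≤ 2 * X → 0 < X →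
        e / 4 * (1 + 12 / L) + s * (12 / L + 2 * √(2 * (T : ℝ)) / X) + 4 * √(2 * (T : ℝ)) * L ^ 2 / X ≤
          3 * e / 8 := fun X hX hX0 =>
      CUM_small T ((T : ℝ) ^ θ) L δ e s (2 ^ w) X hTp E8 hδ0 he0 he1 hδ2 h2w hs0 hs1 E1 E2 hδ1 hX hX0
    have hXlow : √(T : ℝ) * (T : ℝ) ^ θ ≤ 2 * ((2 ^ n * k : ℕ) : ℝ) := by
      rw [← hsplit]
      have : (x : ℝ) ≤ 2 * ((2 ^ n * k : ℕ) : ℝ) := by
        have : x ≤ 2 * (2 ^ n * k) := by omega
        exact_mod_cast this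
      linarith
    have hX'low : √(T : ℝ) * (T : ℝ) ^ θ ≤ 2 * ((2 ^ n * (k + 1) : ℕ) : ℝ) := by
      rw [← hsplit]
      have : (x : ℝ) ≤ ((2 ^ n * (k + 1) : ℕ) : ℝ) := by exact_mod_cast hxX.le
      have : (0 : ℝ) < x := hxp
      linarith
    have hXT : ((2 ^ n * k : ℕ) : ℝ) ≤ T := by
      have : ((2 ^ n * k : ℕ) : ℝ) ≤ x := by exact_mod_cast hXx
      linarith
    have hX'T : ((2 ^ n * (k + 1) : ℕ) : ℝ) ≤ T := by
      have : ((2 ^ n * (k + 1) : ℕ) : ℝ) ≤ 2 * x := by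
        have : 2 ^ n * (k + 1) ≤ 2 * x := by omega
        exact_mod_cast this
      linarith
    have hXpos : (0 : ℝ) < ((2 ^ n * k : ℕ) : ℝ) := by
      have : 0 < 2 ^ n * k := Nat.mul_pos (by omega) (by omega)
      exact_mod_cast this
    have hX'pos : (0 : ℝ) < ((2 ^ n * (k + 1) : ℕ) : ℝ) := by
      have : 0 < 2 ^ n * (k + 1) := Nat.mul_pos (by omega) (by omega)
      exact_mod_cast this
    have c1 := CUM_chain T k n s (e / 4) b (by linarith) (by omega) (by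
      have : (k : ℝ) ≤ 2 * M := by exact_mod_cast hk2.le
      linarith) hXT hs0 (by positivity) (by
      intro i hi h2T
      refine hmem i k hk1 hk2.le ?_ h2T
      refine le_trans (Nat.mul_le_mul_right _ ?_) hXx
      exact Nat.pow_le_pow_right (by norm_num) hi.le)
    have c2 := CUM_chain T (k + 1) n s (e / 4) b (by linarith) (by omega) (by
      have : (((k + 1 : ℕ)) : ℝ) ≤ 2 * M := by exact_mod_cast hk2
      linarith) hX'T hs0 (by positivity) (by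
      intro i hi h2T
      refine hmem i (k + 1) (by omega) (by omega) ?_ h2T
      have k1 : 2 ^ (i + 1) * (k + 1) ≤ 2 ^ n * (k + 1) :=
        Nat.mul_le_mul_right _ (Nat.pow_le_pow_right (by norm_num) hi)
      have k2 : 2 ^ (i + 1) * (k + 1) = 2 * (2 ^ i * (k + 1)) := by
        rw [pow_succ]
        ring
      omega)
    rw [← hL] at c1 c2
    have d1 := c1.trans (hsmall _ hXlow hXpos)
    have d2 := c2.trans (hsmall _ hX'low hX'pos)
    obtain ⟨X, hX⟩ : ∃ X : ℝ, X = ((2 ^ n * k : ℕ) : ℝ) := ⟨_, rfl⟩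
    obtain ⟨X', hX'⟩ : ∃ X' : ℝ, X' = ((2 ^ n * (k + 1) : ℕ) : ℝ) := ⟨_, rfl⟩
    rw [← hX] at d1 hXpos hXT
    rw [← hX'] at d2 hX'pos hX'T
    have r1 : (cnt (2 ^ n * k) b : ℝ) ≤ cnt x b := by exact_mod_cast CUM_cnt_mono b hXx
    have r2 : (cnt x b : ℝ) ≤ cnt (2 ^ n * (k + 1)) b := by exact_mod_cast CUM_cnt_mono b hxX.le
    have hXx' : X ≤ x := by
      rw [hX]
      exact_mod_cast hXx
    have hxX' : (x : ℝ) ≤ X' := by
      rw [hX']
      exact_mod_cast hxX.le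
    have hX'δ : X' ≤ X * (1 + δ) := by
      have k1 : X' = X + 2 ^ n := by
        rw [hX, hX']
        push_cast
        ring
      have k2 : (2 : ℝ) ^ n * M ≤ X := by
        rw [hX]
        push_cast
        have : (M : ℝ) ≤ k := by exact_mod_cast hk1
        gcongr
      have k3 : (2 : ℝ) ^ n * 1 ≤ 2 ^ n * (δ * M) :=
        mul_le_mul_of_nonneg_left hMδ (by positivity)
      have k4 := mul_le_mul_of_nonneg_left k2 hδ0.le
      have k5 : (2 : ℝ) ^ n * (δ * M) = δ * (2 ^ n * M) := by ring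
      have k6 : X * (1 + δ) = X + δ * X := by ring
      rw [k1, k6]
      linarith
    have hX2 : 2 ≤ X := by
      rw [hX]
      have : 1 * 2 ≤ 2 ^ n * k := Nat.mul_le_mul hpow (by omega)
      exact_mod_cast this
    obtain ⟨hDp, hD1p, hD2p, hD1D, hD2D⟩ := CUM_DD X X' x δ hX2 hδ0 hδ2 hXx' hxX' hX'δ
    have hcon : |(cnt x (b : ℤ) : ℝ) / (x / (2 * Real.log x ^ 2)) - s| ≤ ε :=
      (CUM_cmp δ e s (2 ^ w) _ _ _ _ _ _ hδ0 he1 hδ1 hs1 hDp hD1p hD2p hD1D hD2D (by positivity)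
        (by positivity) r1 r2 d1 d2).trans heε
    exact absurd hx3 (not_lt.2 hcon)
  have hfin := Set.ncard_le_ncard hsub (Finset.finite_toSet _)
  rw [Set.ncard_coe_finset] at hfin
  refine le_trans (by exact_mod_cast hfin) (hexc.trans ?_)
  nlinarith

end Pool.Agent.BQ
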