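import Pool.Agent.helper7.BQ.Spec

set_option autoImplicit false

namespace Pool.Agent.BQ

open Finset ArithmeticFunction MeasureTheory
open Pool.Agent.helper74.TG (ee gb)
open Pool.Agent.CH (nit ph mu2 DPb BLb eU PP dB)

private lemma TI2_nit_norm (t x : ℝ) : ‖nit t x‖ = 1 := by
  unfold nit
  exact Complex.norm_exp_ofReal_mul_I _

private lemma TI2_nit_mul (t : ℝ) {x y : ℝ} (hx : 0 < x) (hy : 0 < y) :
    nit t (x * y) = nit t x * nit t y := by
  unfold nit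
  rw [Real.log_mul hx.ne' hy.ne', ← Complex.exp_add]
  congr 1
  push_cast
  ring

private lemma TI2_fib (em : Pool.Agent.CH.EM_stmt) (q : ℕ) (hq : 1 ≤ q) (χ : DirichletCharacter ℂ q) (t : ℝ)
    (ht : t ≠ 0) (X r : ℕ) (hr : r < q) :
    ‖∑ k ∈ ((Ioc 0 X).filter (fun k => q ≤ k)).filter (fun k => k % q = r),
      χ (k : ZMod q) * nit t k‖ ≤ 4 * X / |t| + 1 + |t| * Real.log X := by
  have hq0 : (0 : ℝ) < q := by exact_mod_cast hq
  have htp : 0 < |t| := abs_pos.2 ht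
  have h1 : ∑ k ∈ ((Ioc 0 X).filter (fun k => q ≤ k)).filter (fun k => k % q = r),
      χ (k : ZMod q) * nit t k =
      ∑ m ∈ Ioc 0 ((X - r) / q), χ (r : ZMod q) * nit t q * nit t ((m : ℝ) + (r : ℝ) / q) := by
    refine Finset.sum_nbij' (fun k => k / q) (fun m => q * m + r) ?_ ?_ ?_ ?_ ?_
    · intro k hk
      simp only [mem_filter, mem_Ioc] at hk ⊢
      obtain ⟨⟨⟨_, hkX⟩, hqk⟩, hkr⟩ := hk
      refine ⟨Nat.div_pos hqk hq, ?_⟩
      rw [Nat.le_div_iff_mul_le hq]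
      have := Nat.div_add_mod k q
      rw [mul_comm]
      omega
    · intro m hm
      simp only [mem_filter, mem_Ioc] at hm ⊢
      obtain ⟨hm0, hmX⟩ := hm
      rw [Nat.le_div_iff_mul_le hq, mul_comm] at hmX
      have h2 : q ≤ q * m := Nat.le_mul_of_pos_right q hm0
      refine ⟨⟨⟨by omega, by omega⟩, by omega⟩, ?_⟩
      rw [Nat.mul_add_mod, Nat.mod_eq_of_lt hr]
    · intro k hk
      simp only [mem_filter, mem_Ioc] at hk
      obtain ⟨_, hkr⟩ := hk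
      show q * (k / q) + r = k
      rw [← hkr]
      exact Nat.div_add_mod k q
    · intro m _
      show (q * m + r) / q = m
      rw [Nat.mul_add_div hq, Nat.div_eq_of_lt hr, add_zero]
    · intro k hk
      simp only [mem_filter, mem_Ioc] at hk
      obtain ⟨⟨_, hqk⟩, hkr⟩ := hk
      have hk2 := Nat.div_add_mod k q
      rw [hkr] at hk2
      have h3 : (k : ZMod q) = (r : ZMod q) := by
        rw [← hk2]
        push_cast
        rw [CharP.cast_eq_zero, zero_mul, zero_add]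
      have h4 : (k : ℝ) = q * (((k / q : ℕ) : ℝ) + (r : ℝ) / q) := by
        rw [mul_add, mul_div_cancel₀ _ hq0.ne']
        exact_mod_cast hk2.symm
      have h5 : (0 : ℝ) < ((k / q : ℕ) : ℝ) + (r : ℝ) / q := by
        have : 0 < k / q := Nat.div_pos hqk hq
        have h6 : (0 : ℝ) < ((k / q : ℕ) : ℝ) := by exact_mod_cast this
        positivity
      rw [h3, mul_assoc, ← TI2_nit_mul t hq0 h5, ← h4]
  rw [h1, ← Finset.mul_sum, norm_mul, norm_mul, TI2_nit_norm, mul_one]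
  have hχ : ‖χ (r : ZMod q)‖ ≤ 1 := χ.norm_le_one _
  have hXr : 0 ≤ |t| * Real.log X := by
    rcases Nat.eq_zero_or_pos X with h | h
    · rw [h]
      simp
    · exact mul_nonneg htp.le (Real.log_nonneg (by exact_mod_cast h))
  have h7 : ‖∑ m ∈ Ioc 0 ((X - r) / q), nit t ((m : ℝ) + (r : ℝ) / q)‖ ≤
      4 * X / |t| + 1 + |t| * Real.log X := by
    rcases Nat.eq_zero_or_pos ((X - r) / q) with h | h
    · rw [h]
      simp only [Ioc_self, sum_empty, norm_zero]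
      positivity
    · have hMX : (X - r) / q ≤ X := (Nat.div_le_self _ _).trans (Nat.sub_le _ _)
      have h8 := em t (((X - r) / q : ℕ) : ℝ) ((r : ℝ) / q) ht (by exact_mod_cast h)
        (by positivity) (by
          rw [div_le_one hq0]
          exact_mod_cast hr.le)
      rw [Nat.floor_natCast] at h8
      refine h8.trans ?_
      have hMX' : (((X - r) / q : ℕ) : ℝ) ≤ X := by exact_mod_cast hMX
      have h9 : Real.log (((X - r) / q : ℕ) : ℝ) ≤ Real.log X :=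
        Real.log_le_log (by exact_mod_cast h) hMX'
      gcongr
  calc ‖χ (r : ZMod q)‖ * ‖∑ m ∈ Ioc 0 ((X - r) / q), nit t ((m : ℝ) + (r : ℝ) / q)‖
      ≤ 1 * ‖∑ m ∈ Ioc 0 ((X - r) / q), nit t ((m : ℝ) + (r : ℝ) / q)‖ := by gcongr
    _ ≤ _ := by rw [one_mul]; exact h7

private lemma TI2_char (em : Pool.Agent.CH.EM_stmt) (q : ℕ) (hq : 1 ≤ q) (χ : DirichletCharacter ℂ q) (t : ℝ)
    (ht : t ≠ 0) (X : ℕ) :
    ‖∑ k ∈ Ioc 0 X, χ (k : ZMod q) * nit t k‖ ≤ q * (4 * X / |t| + 2 + |t| * Real.log X) := by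
  rw [← Finset.sum_filter_add_sum_filter_not (Ioc 0 X) (fun k => q ≤ k)]
  have h1 : ‖∑ k ∈ (Ioc 0 X).filter (fun k => q ≤ k), χ (k : ZMod q) * nit t k‖ ≤
      q * (4 * X / |t| + 1 + |t| * Real.log X) := by
    rw [← Finset.sum_fiberwise_of_maps_to (g := fun k => k % q) (t := range q)
      (fun k _ => mem_range.2 (Nat.mod_lt _ hq))]
    refine (norm_sum_le _ _).trans ?_
    refine (Finset.sum_le_sum fun r hr => TI2_fib em q hq χ t ht X r (mem_range.1 hr)).trans ?_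
    rw [Finset.sum_const, card_range, nsmul_eq_mul]
  have h2 : ‖∑ k ∈ (Ioc 0 X).filter (fun k => ¬ q ≤ k), χ (k : ZMod q) * nit t k‖ ≤ q := by
    refine (norm_sum_le _ _).trans ?_
    have h3 : ∀ k ∈ (Ioc 0 X).filter (fun k => ¬ q ≤ k), ‖χ (k : ZMod q) * nit t k‖ ≤ 1 := by
      intro k _
      rw [norm_mul, TI2_nit_norm, mul_one]
      exact χ.norm_le_one _
    refine (Finset.sum_le_sum h3).trans ?_
    rw [Finset.sum_const, nsmul_eq_mul, mul_one]
    have h4 : ((Ioc 0 X).filter (fun k => ¬ q ≤ k)) ⊆ range q := by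
      intro k hk
      rw [mem_filter, not_le] at hk
      exact mem_range.2 hk.2
    have := Finset.card_le_card h4
    rw [card_range] at this
    exact_mod_cast this
  refine (norm_add_le _ _).trans ?_
  linarith

private lemma TI2_abel (c : ℕ → ℂ) (K : ℕ) (hK : 1 ≤ K) (E : ℝ)
    (hE : ∀ n, K ≤ n → n ≤ 2 * K → ‖∑ k ∈ Ico K n, c k‖ ≤ E) :
    ‖∑ k ∈ Ico K (2 * K), c k * (Real.log k : ℂ)‖ ≤ 2 * E * Real.log ((2 * K : ℕ) : ℝ) := by
  have key : ∀ n, K ≤ n → n ≤ 2 * K →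
      ‖∑ k ∈ Ico K n, c k * (Real.log k : ℂ) - (∑ k ∈ Ico K n, c k) * (Real.log n : ℂ)‖ ≤
        E * (Real.log n - Real.log K) := by
    intro n hn
    induction n, hn using Nat.le_induction with
    | base =>
      intro _
      simp
    | succ n hn ih =>
      intro hn2
      have h1 := ih (by omega)
      rw [Finset.sum_Ico_succ_top hn]
      have h2 : ∑ k ∈ Ico K n, c k * (Real.log k : ℂ) + c n * (Real.log n : ℂ) -
          (∑ k ∈ Ico K (n + 1), c k) * (Real.log ((n + 1 : ℕ) : ℝ) : ℂ) =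
          (∑ k ∈ Ico K n, c k * (Real.log k : ℂ) - (∑ k ∈ Ico K n, c k) * (Real.log n : ℂ)) -
          (∑ k ∈ Ico K (n + 1), c k) * ((Real.log ((n + 1 : ℕ) : ℝ) - Real.log n : ℝ) : ℂ) := by
        rw [Finset.sum_Ico_succ_top hn]
        push_cast
        ring
      rw [h2]
      refine (norm_sub_le _ _).trans ?_
      have hnp : (0 : ℝ) < n := by
        have : 0 < n := by omega
        exact_mod_cast this
      have h3 : 0 ≤ Real.log ((n + 1 : ℕ) : ℝ) - Real.log n := by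
        rw [sub_nonneg]
        exact Real.log_le_log hnp (by push_cast; linarith)
      rw [norm_mul, Complex.norm_real, Real.norm_of_nonneg h3]
      have h4 := mul_le_mul_of_nonneg_right (hE (n + 1) (by omega) hn2) h3
      linarith
  have h1 := key (2 * K) (by omega) le_rfl
  have h2 := hE (2 * K) (by omega) le_rfl
  have hE0 : 0 ≤ E := (norm_nonneg _).trans h2
  have hlK : 0 ≤ Real.log K := Real.log_nonneg (by exact_mod_cast hK)
  have hl2 : 0 ≤ Real.log ((2 * K : ℕ) : ℝ) := Real.log_nonneg (by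
    have : 1 ≤ 2 * K := by omega
    exact_mod_cast this)
  have h3 : ‖(∑ k ∈ Ico K (2 * K), c k) * (Real.log ((2 * K : ℕ) : ℝ) : ℂ)‖ ≤
      E * Real.log ((2 * K : ℕ) : ℝ) := by
    rw [norm_mul, Complex.norm_real, Real.norm_of_nonneg hl2]
    gcongr
  have h4 : ∑ k ∈ Ico K (2 * K), c k * (Real.log k : ℂ) =
      (∑ k ∈ Ico K (2 * K), c k * (Real.log k : ℂ) -
        (∑ k ∈ Ico K (2 * K), c k) * (Real.log ((2 * K : ℕ) : ℝ) : ℂ)) +
      (∑ k ∈ Ico K (2 * K), c k) * (Real.log ((2 * K : ℕ) : ℝ) : ℂ) := by ring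
  rw [h4]
  refine (norm_add_le _ _).trans ?_
  have h5 : E * (Real.log ((2 * K : ℕ) : ℝ) - Real.log K) ≤ E * Real.log ((2 * K : ℕ) : ℝ) :=
    mul_le_mul_of_nonneg_left (by linarith) hE0
  linarith

/-- The sum over a block. -/
private lemma TI2_block (em : Pool.Agent.CH.EM_stmt) (q : ℕ) (hq : 1 ≤ q) (χ : DirichletCharacter ℂ q) (t : ℝ)
    (ht : t ≠ 0) (K : ℕ) (hK : 1 ≤ K) (n : ℕ) (hKn : K ≤ n) (hn : n ≤ 2 * K) :
    ‖∑ k ∈ Ico K n, χ (k : ZMod q) * nit t k‖ ≤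
      2 * (q * (4 * ((2 * K : ℕ) : ℝ) / |t| + 2 + |t| * Real.log ((2 * K : ℕ) : ℝ))) := by
  have htp : 0 < |t| := abs_pos.2 ht
  have hq0 : (0 : ℝ) < q := by exact_mod_cast hq
  have mono : ∀ X : ℕ, X ≤ 2 * K → q * (4 * (X : ℝ) / |t| + 2 + |t| * Real.log X) ≤
      q * (4 * ((2 * K : ℕ) : ℝ) / |t| + 2 + |t| * Real.log ((2 * K : ℕ) : ℝ)) := by
    intro X hX
    have hX' : (X : ℝ) ≤ ((2 * K : ℕ) : ℝ) := by exact_mod_cast hX
    have hl : Real.log X ≤ Real.log ((2 * K : ℕ) : ℝ) := by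
      rcases Nat.eq_zero_or_pos X with h | h
      · rw [h]
        simp only [Nat.cast_zero, Real.log_zero]
        refine Real.log_nonneg ?_
        have : 1 ≤ 2 * K := by omega
        exact_mod_cast this
      · exact Real.log_le_log (by exact_mod_cast h) hX'
    gcongr
  have h1 : ∑ k ∈ Ico K n, χ (k : ZMod q) * nit t k =
      ∑ k ∈ Ioc 0 (n - 1), χ (k : ZMod q) * nit t k -
        ∑ k ∈ Ioc 0 (K - 1), χ (k : ZMod q) * nit t k := by
    rw [eq_sub_iff_add_eq, add_comm]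
    rcases Nat.eq_or_lt_of_le hKn with h | h
    · rw [h]
      simp
    · have e1 : Ico K n = Ioc (K - 1) (n - 1) := by
        ext k
        simp only [mem_Ico, mem_Ioc]
        omega
      rw [e1, Finset.sum_Ioc_consecutive _ (Nat.zero_le _) (by omega)]
  rw [h1]
  refine (norm_sub_le _ _).trans ?_
  have h2 := (TI2_char em q hq χ t ht (n - 1)).trans (mono (n - 1) (by omega))
  have h3 := (TI2_char em q hq χ t ht (K - 1)).trans (mono (K - 1) (by omega))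
  linarith


private lemma TI2_int (T₀ T₁ C C' : ℝ) (hT : 0 < T₀) (hT1 : 0 ≤ T₁) (hC : 0 ≤ C) (hC' : 0 ≤ C') (S : Set ℝ)
    (hS : MeasurableSet S)
    (hST : ∀ t ∈ S, T₀ ≤ |t|) (hST1 : ∀ t ∈ S, |t| ≤ T₁) (F : ℝ → ℝ) (hF0 : ∀ t, 0 ≤ F t)
    (hF : ∀ t ∈ S, F t ≤ C / t ^ 2 + C') : ∫ t in S, F t ≤ 2 * Real.pi * C / T₀ + 2 * T₁ * C' := by
  have hg : Integrable (fun t : ℝ => 2 * C / T₀ ^ 2 * (1 + (t / T₀) ^ 2)⁻¹) :=
    (integrable_inv_one_add_sq.comp_div hT.ne').const_mul _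
  have hg0 : ∀ t : ℝ, 0 ≤ 2 * C / T₀ ^ 2 * (1 + (t / T₀) ^ 2)⁻¹ := fun t => by positivity
  have hSI : S ⊆ Set.Icc (-T₁) T₁ := fun t ht => abs_le.1 (hST1 t ht)
  have hvol : volume S ≤ ENNReal.ofReal (2 * T₁) := by
    refine (measure_mono hSI).trans ?_
    rw [Real.volume_Icc]
    refine ENNReal.ofReal_le_ofReal ?_
    linarith
  have hvol' : volume S ≠ ⊤ := ne_top_of_le_ne_top ENNReal.ofReal_ne_top hvol
  have hconst : IntegrableOn (fun _ : ℝ => C') S := integrableOn_const hvol'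
  have h1 : ∫ t in S, F t ≤ ∫ t in S, (2 * C / T₀ ^ 2 * (1 + (t / T₀) ^ 2)⁻¹ + C') := by
    refine integral_mono_of_nonneg (Filter.Eventually.of_forall hF0) (hg.integrableOn.add hconst) ?_
    refine (ae_restrict_iff' hS).2 (Filter.Eventually.of_forall fun t ht => ?_)
    refine (hF t ht).trans ?_
    have h2 := hST t ht
    have h3 : T₀ ^ 2 ≤ t ^ 2 := by
      rw [← sq_abs t]
      exact pow_le_pow_left₀ hT.le h2 2
    have ht2 : 0 < t ^ 2 := lt_of_lt_of_le (by positivity) h3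
    have h4 : 2 * C / T₀ ^ 2 * (1 + (t / T₀) ^ 2)⁻¹ = 2 * C / (T₀ ^ 2 + t ^ 2) := by
      field_simp
    show C / t ^ 2 + C' ≤ 2 * C / T₀ ^ 2 * (1 + (t / T₀) ^ 2)⁻¹ + C'
    rw [h4]
    have h7 : C / t ^ 2 ≤ 2 * C / (T₀ ^ 2 + t ^ 2) := by
      rw [div_le_div_iff₀ ht2 (by positivity)]
      nlinarith [mul_le_mul_of_nonneg_left h3 hC]
    linarith
  have h5 : ∫ t in S, 2 * C / T₀ ^ 2 * (1 + (t / T₀) ^ 2)⁻¹ ≤
      ∫ t : ℝ, 2 * C / T₀ ^ 2 * (1 + (t / T₀) ^ 2)⁻¹ :=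
    setIntegral_le_integral hg (Filter.Eventually.of_forall hg0)
  have h6 : ∫ t : ℝ, 2 * C / T₀ ^ 2 * (1 + (t / T₀) ^ 2)⁻¹ = 2 * Real.pi * C / T₀ := by
    rw [integral_const_mul, Measure.integral_comp_div (fun t : ℝ => (1 + t ^ 2)⁻¹) T₀,
      integral_univ_inv_one_add_sq, abs_of_pos hT, smul_eq_mul]
    field_simp
  have h8 : ∫ _ in S, C' ≤ 2 * T₁ * C' := by
    rw [setIntegral_const, smul_eq_mul]
    refine mul_le_mul_of_nonneg_right ?_ hC'
    exact ENNReal.toReal_le_of_le_ofReal (by positivity) hvol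
  rw [integral_add hg.integrableOn hconst] at h1
  linarith

private lemma TI2_meas (B₁ N : ℕ) : MeasurableSet (Ts B₁ N) := by
  unfold Ts
  exact (measurableSet_le measurable_const continuous_abs.measurable).inter
    (measurableSet_le continuous_abs.measurable measurable_const)

theorem TI2 (h1 : CH.EM_stmt) : TI2_stmt := by
  have em := h1
  intro ε A B hε hε1
  obtain ⟨x₀, hx₀⟩ : ∃ x₀ : ℝ, ∀ x : ℝ, x₀ ≤ x → Real.log x ^ (2 * B + 8 + A + 1) ≤ x := by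
    have h := (Real.isLittleO_pow_log_id_atTop (n := 2 * B + 8 + A + 1)).bound one_pos
    obtain ⟨x₀, hx₀⟩ := Filter.eventually_atTop.1 h
    refine ⟨max x₀ 1, fun x hx => ?_⟩
    have h2 := hx₀ x ((le_max_left _ _).trans hx)
    have h3 : 1 ≤ x := (le_max_right _ _).trans hx
    rw [one_mul, id, Real.norm_of_nonneg (pow_nonneg (Real.log_nonneg h3) _),
      Real.norm_of_nonneg (by linarith)] at h2
    exact h2
  refine ⟨2 * B + 6 + A + 1, max ⌈Real.exp (10 ^ 11)⌉₊ ⌈x₀⌉₊, ?_⟩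
  intro N hN q hq hqB χ D K h a hD hDN hDK hDK2 hh ha
  have hNexp : Real.exp (10 ^ 11) ≤ N := (Nat.le_ceil _).trans (by exact_mod_cast (le_max_left _ _).trans hN)
  have hNx : x₀ ≤ N := (Nat.le_ceil _).trans (by exact_mod_cast (le_max_right _ _).trans hN)
  have hgr := hx₀ N hNx
  have hNp : (0 : ℝ) < N := (Real.exp_pos _).trans_le hNexp
  obtain ⟨L, hL⟩ : ∃ L, L = Real.log N := ⟨_, rfl⟩
  have hL11 : (10 : ℝ) ^ 11 ≤ L := by
    rw [hL, Real.le_log_iff_exp_le hNp]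
    exact hNexp
  have hL1 : 1 ≤ L := le_trans (by norm_num) hL11
  have hLp : 0 < L := by linarith
  have hNL : (N : ℝ) = Real.exp L := by rw [hL, Real.exp_log hNp]
  rw [← hL] at hqB ha hgr ⊢
  have hDp : (0 : ℝ) < D := by exact_mod_cast hD
  have hN1 : (1 : ℝ) ≤ N := by
    rw [hNL]
    exact Real.one_le_exp hLp.le
  -- bounds for K
  have hDKr : (N : ℝ) ^ 3 ≤ 64 * ((D : ℝ) * K) := by exact_mod_cast hDK
  have hDKr2 : (D : ℝ) * K ≤ 64 * (N : ℝ) ^ 3 := by exact_mod_cast hDK2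
  have hKpos : 0 < K := by
    rcases Nat.eq_zero_or_pos K with h0 | h0
    · rw [h0] at hDKr
      simp only [Nat.cast_zero, mul_zero] at hDKr
      exact absurd hDKr (not_le.2 (by positivity))
    · exact h0
  have hKr : (0 : ℝ) < K := by exact_mod_cast hKpos
  have hK2 : (K : ℝ) ≤ 64 * (N : ℝ) ^ 3 := by
    have : (1 : ℝ) * K ≤ D * K := by
      gcongr
      exact_mod_cast hD
    linarith
  have hlog2K : Real.log ((2 * K : ℕ) : ℝ) ≤ 4 * L := by
    have h1 : ((2 * K : ℕ) : ℝ) ≤ 128 * (N : ℝ) ^ 3 := by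
      push_cast
      linarith
    have h2 : Real.log ((2 * K : ℕ) : ℝ) ≤ Real.log (128 * (N : ℝ) ^ 3) :=
      Real.log_le_log (by push_cast; positivity) h1
    rw [Real.log_mul (by norm_num) (by positivity), Real.log_pow, ← hL] at h2
    have h3 : Real.log 128 ≤ 128 - 1 := Real.log_le_sub_one_of_pos (by norm_num)
    have h4 : ((3 : ℕ) : ℝ) = 3 := by norm_num
    rw [h4] at h2
    have h5 : (127 : ℝ) ≤ 10 ^ 11 := by norm_num
    linarith
  -- the bound on the set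
  have hbd : ∀ t ∈ Ts (2 * B + 6 + A + 1) N,
      ‖DPb D a t‖ ^ 2 * ‖DPb K (fun k => χ (k : ZMod q) * (Real.log k : ℂ) ^ h) t‖ ^ 2 ≤
        (134217728 * (N : ℝ) ^ 6 * L ^ (2 * B + 6)) / t ^ 2 +
          18432 * L ^ (2 * B + 8) * (N : ℝ) ^ (17 / 5 : ℝ) := by
    intro t ht
    obtain ⟨ht1, ht2⟩ := ht
    rw [← hL] at ht1
    have hL0 : 1 ≤ L ^ (2 * B + 6 + A + 1) := one_le_pow₀ hL1
    have ht1' : 1 ≤ |t| := hL0.trans ht1
    have htp : 0 < |t| := by linarith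
    have ht0 : t ≠ 0 := abs_pos.1 htp
    have ht3 : |t| ^ 2 ≤ (N : ℝ) ^ (3 : ℝ) := by
      calc |t| ^ 2 ≤ ((N : ℝ) ^ (3 / 2 : ℝ)) ^ 2 := by gcongr
        _ = _ := by
          rw [← Real.rpow_natCast, ← Real.rpow_mul hNp.le]
          norm_num
    have hE : ∀ n, K ≤ n → n ≤ 2 * K → ‖∑ k ∈ Ico K n, χ (k : ZMod q) * nit t k‖ ≤
        2 * (q * (8 * (K / |t|) + 6 * L * |t|)) := by
      intro n hn1 hn2
      refine (TI2_block em q hq χ t ht0 K hKpos n hn1 hn2).trans ?_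
      have h1 : 4 * ((2 * K : ℕ) : ℝ) / |t| + 2 + |t| * Real.log ((2 * K : ℕ) : ℝ) ≤
          8 * (K / |t|) + 6 * L * |t| := by
        have h2 : |t| * Real.log ((2 * K : ℕ) : ℝ) ≤ |t| * (4 * L) := by gcongr
        have h3 : 4 * ((2 * K : ℕ) : ℝ) / |t| = 8 * (K / |t|) := by
          push_cast
          ring
        rw [h3]
        nlinarith
      gcongr
    have hR0 : 0 ≤ 8 * ((K : ℝ) / |t|) + 6 * L * |t| := by positivity
    have hDK3 : ‖DPb K (fun k => χ (k : ZMod q) * (Real.log k : ℂ) ^ h) t‖ ≤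
        16 * L ^ (B + 1) * (8 * (K / |t|) + 6 * L * |t|) := by
      have hqq : 0 ≤ (q : ℝ) * (8 * (K / |t|) + 6 * L * |t|) := by positivity
      have hfin : 2 * (q * (8 * (K / |t|) + 6 * L * |t|)) * (8 * L) ≤
          16 * L ^ (B + 1) * (8 * (K / |t|) + 6 * L * |t|) := by
        have : (q : ℝ) * (L * (8 * (K / |t|) + 6 * L * |t|)) ≤ L ^ B * (L * (8 * (K / |t|) + 6 * L * |t|)) := by
          gcongr
        rw [pow_succ]
        nlinarith
      refine le_trans ?_ hfin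
      unfold DPb
      interval_cases h
      · have h1 := hE (2 * K) (by omega) le_rfl
        simp only [pow_zero, mul_one]
        refine h1.trans ?_
        nlinarith
      · have h1 := TI2_abel (fun k => χ (k : ZMod q) * nit t k) K hKpos _ hE
        simp only [pow_one]
        have h2 : ∑ k ∈ Ico K (2 * K), χ (k : ZMod q) * (Real.log k : ℂ) * nit t k =
            ∑ k ∈ Ico K (2 * K), χ (k : ZMod q) * nit t k * (Real.log k : ℂ) :=
          Finset.sum_congr rfl fun k _ => by ring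
        rw [h2]
        refine h1.trans ?_
        nlinarith
    have hDD : ‖DPb D a t‖ ≤ D * L ^ 2 := by
      unfold DPb
      refine (norm_sum_le _ _).trans ?_
      have h1 : ∀ m ∈ Ico D (2 * D), ‖a m * nit t m‖ ≤ L ^ 2 := by
        intro m _
        rw [norm_mul, TI2_nit_norm, mul_one]
        exact ha m
      refine (Finset.sum_le_sum h1).trans ?_
      rw [Finset.sum_const, Nat.card_Ico, nsmul_eq_mul]
      have : 2 * D - D = D := by omega
      rw [this]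
    have h1 : ‖DPb D a t‖ * ‖DPb K (fun k => χ (k : ZMod q) * (Real.log k : ℂ) ^ h) t‖ ≤
        16 * L ^ (B + 3) * (512 * (N : ℝ) ^ 3 / |t| + 6 * L * (N : ℝ) ^ (1 / 5 : ℝ) * |t|) := by
      calc ‖DPb D a t‖ * ‖DPb K (fun k => χ (k : ZMod q) * (Real.log k : ℂ) ^ h) t‖
          ≤ (D * L ^ 2) * (16 * L ^ (B + 1) * (8 * (K / |t|) + 6 * L * |t|)) := by gcongr
        _ = 16 * L ^ (B + 3) * (8 * ((D : ℝ) * K) / |t| + 6 * L * D * |t|) := by
          rw [show B + 3 = 2 + (B + 1) from by ring, pow_add]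
          ring
        _ ≤ 16 * L ^ (B + 3) * (8 * (64 * (N : ℝ) ^ 3) / |t| + 6 * L * (N : ℝ) ^ (1 / 5 : ℝ) * |t|) := by
          gcongr
        _ = _ := by ring
    have hX0 : 0 ≤ 512 * (N : ℝ) ^ 3 / |t| := by positivity
    have hY0 : 0 ≤ 6 * L * (N : ℝ) ^ (1 / 5 : ℝ) * |t| := by positivity
    calc ‖DPb D a t‖ ^ 2 * ‖DPb K (fun k => χ (k : ZMod q) * (Real.log k : ℂ) ^ h) t‖ ^ 2
        = (‖DPb D a t‖ * ‖DPb K (fun k => χ (k : ZMod q) * (Real.log k : ℂ) ^ h) t‖) ^ 2 := by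
          ring
      _ ≤ (16 * L ^ (B + 3) * (512 * (N : ℝ) ^ 3 / |t| + 6 * L * (N : ℝ) ^ (1 / 5 : ℝ) * |t|)) ^ 2 := by
          gcongr
      _ = 256 * (L ^ (B + 3)) ^ 2 * (512 * (N : ℝ) ^ 3 / |t| + 6 * L * (N : ℝ) ^ (1 / 5 : ℝ) * |t|) ^ 2 := by
          ring
      _ ≤ 256 * (L ^ (B + 3)) ^ 2 *
          (2 * (512 * (N : ℝ) ^ 3 / |t|) ^ 2 + 2 * (6 * L * (N : ℝ) ^ (1 / 5 : ℝ) * |t|) ^ 2) := by
          refine mul_le_mul_of_nonneg_left ?_ (by positivity)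
          nlinarith [sq_nonneg (512 * (N : ℝ) ^ 3 / |t| - 6 * L * (N : ℝ) ^ (1 / 5 : ℝ) * |t|)]
      _ = (134217728 * (N : ℝ) ^ 6 * L ^ (2 * B + 6)) / t ^ 2 +
          18432 * L ^ (2 * B + 8) * (((N : ℝ) ^ (1 / 5 : ℝ)) ^ 2 * |t| ^ 2) := by
          have e1 : (512 * (N : ℝ) ^ 3 / |t|) ^ 2 = 262144 * (N : ℝ) ^ 6 / t ^ 2 := by
            rw [div_pow, sq_abs]
            ring
          rw [e1, show 2 * B + 6 = (B + 3) * 2 from by ring, show 2 * B + 8 = (B + 3) * 2 + 2 from by ring,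
            pow_add, pow_mul]
          ring
      _ ≤ _ := by
          have e2 : ((N : ℝ) ^ (1 / 5 : ℝ)) ^ 2 * |t| ^ 2 ≤ (N : ℝ) ^ (17 / 5 : ℝ) := by
            have e3 : ((N : ℝ) ^ (1 / 5 : ℝ)) ^ 2 = (N : ℝ) ^ (2 / 5 : ℝ) := by
              rw [← Real.rpow_natCast, ← Real.rpow_mul hNp.le]
              norm_num
            rw [e3]
            calc (N : ℝ) ^ (2 / 5 : ℝ) * |t| ^ 2 ≤ (N : ℝ) ^ (2 / 5 : ℝ) * (N : ℝ) ^ (3 : ℝ) := by gcongr
              _ = _ := by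
                rw [← Real.rpow_add hNp]
                norm_num
          gcongr
  have hT0 : 0 < L ^ (2 * B + 6 + A + 1) := by positivity
  have hmain := TI2_int (L ^ (2 * B + 6 + A + 1)) ((N : ℝ) ^ (3 / 2 : ℝ))
    (134217728 * (N : ℝ) ^ 6 * L ^ (2 * B + 6)) (18432 * L ^ (2 * B + 8) * (N : ℝ) ^ (17 / 5 : ℝ))
    hT0 (by positivity) (by positivity) (by positivity) (Ts (2 * B + 6 + A + 1) N) (TI2_meas _ _)
    (fun t ht => by rw [hL]; exact ht.1) (fun t ht => ht.2)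
    (fun t => ‖DPb D a t‖ ^ 2 * ‖DPb K (fun k => χ (k : ZMod q) * (Real.log k : ℂ) ^ h) t‖ ^ 2)
    (fun t => by positivity) hbd
  refine hmain.trans ?_
  have hpi : Real.pi ≤ 4 := Real.pi_le_four
  have hN6 : 0 < (N : ℝ) ^ 6 := by positivity
  have hLA : 0 < L ^ A := by positivity
  have p1 : 2 * Real.pi * (134217728 * (N : ℝ) ^ 6 * L ^ (2 * B + 6)) / L ^ (2 * B + 6 + A + 1) ≤
      (N : ℝ) ^ 6 / L ^ A / 2 := by
    have h2 : 2 * Real.pi * (134217728 * (N : ℝ) ^ 6 * L ^ (2 * B + 6)) / L ^ (2 * B + 6 + A + 1) =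
        (N : ℝ) ^ 6 / L ^ A * (2 * Real.pi * 134217728 / L) := by
      rw [show L ^ (2 * B + 6 + A + 1) = L ^ (2 * B + 6) * L ^ A * L from by rw [pow_succ, pow_add]]
      have h9 : L ^ (2 * B + 6) ≠ 0 := by positivity
      field_simp
    rw [h2]
    have h3 : 2 * Real.pi * 134217728 / L ≤ 1 / 2 := by
      rw [div_le_div_iff₀ hLp (by norm_num)]
      have : 2 * Real.pi * 134217728 * 2 ≤ 2 * 4 * 134217728 * 2 := by gcongr
      refine this.trans (le_trans (by norm_num) (by linarith : (10 : ℝ) ^ 11 ≤ 1 * L))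
    have h4 : 0 ≤ (N : ℝ) ^ 6 / L ^ A := by positivity
    nlinarith
  have p2 : 2 * (N : ℝ) ^ (3 / 2 : ℝ) * (18432 * L ^ (2 * B + 8) * (N : ℝ) ^ (17 / 5 : ℝ)) ≤
      (N : ℝ) ^ 6 / L ^ A / 2 := by
    have h2 : (N : ℝ) ^ (3 / 2 : ℝ) * (N : ℝ) ^ (17 / 5 : ℝ) ≤ (N : ℝ) ^ (5 : ℝ) := by
      rw [← Real.rpow_add hNp]
      exact Real.rpow_le_rpow_of_exponent_le hN1 (by norm_num)
    have h3 : (N : ℝ) ^ (5 : ℝ) = (N : ℝ) ^ 5 := by
      rw [← Real.rpow_natCast]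
      norm_num
    rw [h3] at h2
    have h4 : L ^ (2 * B + 8 + A + 1) = L ^ (2 * B + 8) * L ^ A * L := by
      rw [pow_succ, pow_add]
    rw [h4] at hgr
    rw [div_div, le_div_iff₀ (by positivity)]
    have h5 : 73728 ≤ L := le_trans (by norm_num) hL11
    calc 2 * (N : ℝ) ^ (3 / 2 : ℝ) * (18432 * L ^ (2 * B + 8) * (N : ℝ) ^ (17 / 5 : ℝ)) * (L ^ A * 2)
        = (L ^ (2 * B + 8) * L ^ A * 73728) * ((N : ℝ) ^ (3 / 2 : ℝ) * (N : ℝ) ^ (17 / 5 : ℝ)) := by ring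
      _ ≤ (L ^ (2 * B + 8) * L ^ A * L) * (N : ℝ) ^ 5 := by gcongr
      _ ≤ N * (N : ℝ) ^ 5 := by gcongr
      _ = _ := by ring
  linarith

end Pool.Agent.BQ
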